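import Pool.Agent.helper60.DA.SpecJ

/-!
# Row dj:PS (MP_fb2c2a_nt): power sums of the Teichmüller lifts
-/

set_option autoImplicit false

namespace Pool.Agent.helper60.DA

open Polynomial Finset Pool.Agent.helper60.DK

/-- row dj:PS -/
theorem PS (h : OM_stmt) : PS_stmt := by
  intro p hp hp3 m
  obtain ⟨hmul, h1, h0, hpow, hz, hrd, h1t⟩ := h p hp3
  split_ifs with hd
  · obtain ⟨k, rfl⟩ := hd
    have e1 : ∑ t ∈ univ.erase (0 : ZMod p), om p t ^ ((p - 1) * k) =
        ∑ t ∈ univ.erase (0 : ZMod p), (1 : ZMod (p ^ 2)) := by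
      refine Finset.sum_congr rfl fun t ht => ?_
      rw [pow_mul, hpow t (Finset.ne_of_mem_erase ht), one_pow]
    rw [e1, Finset.sum_const, Finset.card_erase_of_mem (Finset.mem_univ _), Finset.card_univ,
      ZMod.card, nsmul_eq_mul, mul_one, Nat.cast_sub (by omega), Nat.cast_one]
  · have h2 : ¬ (Fintype.card (ZMod p) - 1 ∣ m) := by rwa [ZMod.card]
    have h2' : ¬ ∀ x : (ZMod p)ˣ, x ^ m = 1 := by
      intro h3
      exact h2 ((FiniteField.forall_pow_eq_one_iff (ZMod p) m).1 h3)
    push Not at h2'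
    obtain ⟨x, hx⟩ := h2'
    have hx0 : (x : ZMod p) ≠ 0 := x.ne_zero
    have hx1 : (x : ZMod p) ^ m ≠ 1 := by
      intro h3
      apply hx
      ext
      rw [Units.val_pow_eq_pow_val, h3, Units.val_one]
    set S := ∑ t ∈ univ.erase (0 : ZMod p), om p t ^ m with hS
    have e1 : S = om p x ^ m * S := by
      have e2 : ∑ t ∈ univ.erase (0 : ZMod p), om p ((x : ZMod p) * t) ^ m = S := by
        refine Finset.sum_nbij' (fun t => (x : ZMod p) * t) (fun t => ((x⁻¹ : (ZMod p)ˣ) : ZMod p) * t)
          ?_ ?_ ?_ ?_ ?_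
        · intro t ht
          rw [Finset.mem_erase] at ht ⊢
          exact ⟨mul_ne_zero hx0 ht.1, Finset.mem_univ _⟩
        · intro t ht
          rw [Finset.mem_erase] at ht ⊢
          exact ⟨mul_ne_zero (Units.ne_zero _) ht.1, Finset.mem_univ _⟩
        · intro t _
          show ((x⁻¹ : (ZMod p)ˣ) : ZMod p) * ((x : ZMod p) * t) = t
          rw [← mul_assoc, Units.inv_mul, one_mul]
        · intro t _
          show (x : ZMod p) * (((x⁻¹ : (ZMod p)ˣ) : ZMod p) * t) = t
          rw [← mul_assoc, Units.mul_inv, one_mul]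
        · intro t _
          rfl
      have e3 : ∑ t ∈ univ.erase (0 : ZMod p), om p ((x : ZMod p) * t) ^ m =
          om p x ^ m * S := by
        rw [hS, Finset.mul_sum]
        refine Finset.sum_congr rfl fun t _ => ?_
        rw [hmul, mul_pow]
      rw [← e3, e2]
    have e4 : (om p x ^ m - 1) * S = 0 := by linear_combination -e1
    have hu : IsUnit (om p x ^ m - 1) := by
      apply isUnit_of_rd_ne_zero
      rw [map_sub, map_pow, hrd, map_one]
      exact sub_ne_zero.2 hx1
    exact (hu.mul_right_eq_zero).1 e4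

end Pool.Agent.helper60.DA
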